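import Pool.Agent.N658.FF.Stm2

/-! # Project FF: comparison of dimensions -/

open scoped BigOperators InnerProductSpace Matrix Classical ComplexOrder

noncomputable section

namespace Pool.Agent.N814.FF

open Pool.Agent.TH235.PP Pool.Agent.N658.FF

theorem finr : StmFinr := by
  intro d R L _ hR h w C D hD
  have hmem : ∀ ψ : G (Vt h L) D,
      WithLp.ofLp (ψ : EuclideanSpace ℂ (Site L → Fin d)) ∈ offSpace h L w C := by
    intro ψ u hu
    have huD : u ∈ D := by
      apply hD
      intro c hc y huy
      refine hu (⟨0, by omega⟩, ⟨0, by omega⟩) c hc y ?_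
      rw [← huy]
      unfold sh
      simp
    have h1 : (ψ : EuclideanSpace ℂ (Site L → Fin d)) ∈ Vt h L u := by
      have h2 := ψ.2
      unfold G at h2
      simp only [Submodule.mem_iInf] at h2
      exact h2 u huD
    have h3 : Matrix.toEuclideanLin (term h u) (ψ : EuclideanSpace ℂ (Site L → Fin d)) = 0 :=
      LinearMap.mem_ker.1 h1
    have h4 := congrArg WithLp.ofLp h3
    exact h4
  let F : G (Vt h L) D →ₗ[ℂ] offSpace h L w C :=
    { toFun := fun ψ => ⟨WithLp.ofLp (ψ : EuclideanSpace ℂ (Site L → Fin d)), hmem ψ⟩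
      map_add' := fun _ _ => rfl
      map_smul' := fun _ _ => rfl }
  refine LinearMap.finrank_le_finrank_of_injective (f := F) ?_
  intro a b hab
  have h1 : WithLp.ofLp (a : EuclideanSpace ℂ (Site L → Fin d)) =
      WithLp.ofLp (b : EuclideanSpace ℂ (Site L → Fin d)) := congrArg Subtype.val hab
  apply Subtype.ext
  exact WithLp.ofLp_injective 2 h1

end Pool.Agent.N814.FF
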